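import Mathlib
import Pool.Agent.H86.FS.FinPres
import Pool.Agent.H86.FS.ModelThm
import Pool.Agent.H86.FS.SolvThm

/-!
# Free solvable groups of derived length 3 embed in finitely presented solvable groups

For every rank `r` there is one finitely presented group `H` with trivial ninth derived group which
contains a copy of the free solvable group of rank `r` and derived length `3`. The finite
presentation, the proof that it is solvable and the model are in the files `Pool/Agent/H86/FS`;
here solvability is made quantitative and free solvable groups are also treated through their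
universal property.
-/

set_option autoImplicit false

open scoped commutatorElement

namespace Pool.Agent.Results.MP_a4b3b2_al.FreeSolvableEmbedding

open Pool.Agent.H86.FS

universe u

/-! ### Quantitative solvability -/

section ds

variable {G : Type*} [Group G]

/-- derived series of a subgroup, inside the ambient group -/
private def ds (K : Subgroup G) : ℕ → Subgroup G
  | 0 => K
  | (n + 1) => ⁅ds K n, ds K n⁆

private lemma ds_add (K : Subgroup G) (m n : ℕ) : ds (ds K m) n = ds K (m + n) := by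
  induction n with
  | zero => rfl
  | succ n ih => simp only [ds, ih, Nat.add_eq]

private lemma ds_mono {K L : Subgroup G} (h : K ≤ L) (n : ℕ) : ds K n ≤ ds L n := by
  induction n with
  | zero => exact h
  | succ n ih => exact Subgroup.commutator_mono ih ih

private lemma ds_bot (n : ℕ) : ds (⊥ : Subgroup G) n = ⊥ := by
  induction n with
  | zero => rfl
  | succ n ih => simp only [ds, ih, Subgroup.commutator_bot_left]

private lemma ds_le (K : Subgroup G) (n : ℕ) : ds K n ≤ K := by
  induction n with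
  | zero => exact le_refl _
  | succ n ih =>
    refine (Subgroup.commutator_mono ih ih).trans ?_
    rw [Subgroup.commutator_le]
    intro a ha b hb
    rw [commutatorElement_def]
    exact K.mul_mem (K.mul_mem (K.mul_mem ha hb) (K.inv_mem ha)) (K.inv_mem hb)

private lemma ds_top (n : ℕ) : ds (⊤ : Subgroup G) n = derivedSeries G n := by
  induction n with
  | zero => rfl
  | succ n ih => simp only [ds, ih, derivedSeries_succ]

/-- if `A` normalises `B`, every element of `A ⊔ B` is a product -/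
private lemma mem_sup_prod {A B : Subgroup G} (h : ∀ a ∈ A, ∀ b ∈ B, a * b * a⁻¹ ∈ B)
    {x : G} (hx : x ∈ A ⊔ B) : ∃ a ∈ A, ∃ b ∈ B, x = a * b := by
  let P : Subgroup G :=
    { carrier := {x | ∃ a ∈ A, ∃ b ∈ B, x = a * b}
      one_mem' := ⟨1, A.one_mem, 1, B.one_mem, by simp⟩
      mul_mem' := by
        rintro _ _ ⟨a, ha, b, hb, rfl⟩ ⟨a', ha', b', hb', rfl⟩
        refine ⟨a * a', A.mul_mem ha ha', a'⁻¹ * b * a' * b', ?_, by group⟩
        refine B.mul_mem ?_ hb'
        have := h a'⁻¹ (A.inv_mem ha') b hb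
        simpa using this
      inv_mem' := by
        rintro _ ⟨a, ha, b, hb, rfl⟩
        refine ⟨a⁻¹, A.inv_mem ha, a * b⁻¹ * a⁻¹, h a ha _ (B.inv_mem hb), by group⟩ }
  have hA : A ≤ P := fun a ha => ⟨a, ha, 1, B.one_mem, by simp⟩
  have hB : B ≤ P := fun b hb => ⟨1, A.one_mem, b, hb, by simp⟩
  exact (sup_le hA hB) hx

private lemma comm_sup {A B : Subgroup G} (h : ∀ a ∈ A, ∀ b ∈ B, a * b * a⁻¹ ∈ B) :
    ⁅A ⊔ B, A ⊔ B⁆ ≤ ⁅A, A⁆ ⊔ B := by
  rw [Subgroup.commutator_le]
  intro x hx y hy
  obtain ⟨a, ha, b, hb, rfl⟩ := mem_sup_prod h hx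
  obtain ⟨a', ha', b', hb', rfl⟩ := mem_sup_prod h hy
  have h1 : a'⁻¹ * b * a' ∈ B := by simpa using h a'⁻¹ (A.inv_mem ha') b hb
  have h2 : a'⁻¹ * b * a' * b' * b⁻¹ ∈ B := B.mul_mem (B.mul_mem h1 hb') (B.inv_mem hb)
  have h3 : a * (a'⁻¹ * b * a' * b' * b⁻¹) * a⁻¹ * b'⁻¹ ∈ B :=
    B.mul_mem (h a ha _ h2) (B.inv_mem hb')
  have h4 : a' * (a * (a'⁻¹ * b * a' * b' * b⁻¹) * a⁻¹ * b'⁻¹) * a'⁻¹ ∈ B := h a' ha' _ h3
  have e : ⁅a * b, a' * b'⁆ =
      ⁅a, a'⁆ * (a' * (a * (a'⁻¹ * b * a' * b' * b⁻¹) * a⁻¹ * b'⁻¹) * a'⁻¹) := by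
    simp only [commutatorElement_def]
    group
  rw [e]
  exact Subgroup.mul_mem _ (Subgroup.mem_sup_left (Subgroup.commutator_mem_commutator ha ha'))
    (Subgroup.mem_sup_right h4)

private lemma ds_sup {A B : Subgroup G} (h : ∀ a ∈ A, ∀ b ∈ B, a * b * a⁻¹ ∈ B) (n : ℕ) :
    ds (A ⊔ B) n ≤ ds A n ⊔ B := by
  induction n with
  | zero => exact le_refl _
  | succ n ih =>
    refine (Subgroup.commutator_mono ih ih).trans ?_
    exact comm_sup (fun a ha b hb => h a (ds_le A n ha) b hb)

private lemma ds_sup_bot {A B : Subgroup G} {m n : ℕ} (hA : ds A m = ⊥) (hB : ds B n = ⊥)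
    (h : ∀ a ∈ A, ∀ b ∈ B, a * b * a⁻¹ ∈ B) : ds (A ⊔ B) (m + n) = ⊥ := by
  have h1 : ds (A ⊔ B) m ≤ B := by
    have := ds_sup h m
    rwa [hA, bot_sup_eq] at this
  rw [← ds_add, eq_bot_iff, ← hB]
  exact ds_mono h1 n

private lemma ds_comm (K : Subgroup G) (h : ∀ x ∈ K, ∀ y ∈ K, Commute x y) : ds K 1 = ⊥ := by
  rw [eq_bot_iff]
  show ⁅K, K⁆ ≤ ⊥
  rw [Subgroup.commutator_le]
  intro x hx y hy
  rw [Subgroup.mem_bot, commutatorElement_eq_one_iff_commute]
  exact h x hx y hy

private lemma ds_class2 (K : Subgroup G)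
    (h : ∀ x ∈ K, ∀ y ∈ K, ∀ z ∈ K, Commute ⁅x, y⁆ z) : ds K 2 = ⊥ := by
  have h1 : ds K 1 ≤ Subgroup.centralizer (K : Set G) := by
    show ⁅K, K⁆ ≤ _
    rw [Subgroup.commutator_le]
    intro x hx y hy
    rw [Subgroup.mem_centralizer_iff]
    intro z hz
    exact (h x hx y hy z hz).symm.eq
  rw [eq_bot_iff]
  show ⁅ds K 1, ds K 1⁆ ≤ ⊥
  rw [Subgroup.commutator_le]
  intro x hx y hy
  rw [Subgroup.mem_bot, commutatorElement_eq_one_iff_commute]
  have hx' := h1 hx
  rw [Subgroup.mem_centralizer_iff] at hx'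
  exact (hx' y (ds_le K 1 hy)).symm

end ds

private theorem derived_nine {G : Type*} [Group G] {r : ℕ} (g : Gens G r) (h : Rels g)
    (hg : Subgroup.closure g.set = ⊤) : derivedSeries G 9 = ⊥ := by
  obtain ⟨q1, q2, q3, q4⟩ := h.le_QQ
  have s1 : ds (Rels.S1 g) 1 = ⊥ := ds_comm _ h.S1_comm
  have s2 : ds h.base.eng.grp 2 = ⊥ := ds_class2 _ h.base.eng.grp_class2
  have s3 : ds (Rels.S3 g) 1 = ⊥ := ds_comm _ h.S3_comm
  have s4 : ds h.S4 2 = ⊥ := ds_class2 _ h.S4_class2
  have s5 : ds h.eng2.grp 2 = ⊥ := ds_class2 _ h.eng2.grp_class2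
  have s6 : ds h.NM 1 = ⊥ := ds_comm _ h.NM_comm
  have a1 := ds_sup_bot s1 s2 h.n2
  have a2 := ds_sup_bot a1 s3 h.n3
  have a3 := ds_sup_bot a2 s4 ((h.n4a.sup h.n4b).sup h.n4c)
  have n5 : Nrm (Rels.S1 g ⊔ h.base.eng.grp ⊔ Rels.S3 g ⊔ h.S4) h.eng2.grp :=
    h.n5.mono (sup_le (sup_le (sup_le q1 q2) q3) q4)
  have a4 := ds_sup_bot a3 s5 n5
  have a5 := ds_sup_bot a4 s6 (fun x hx y hy => h.NM_norm x (by rw [hg]; trivial) y hy)
  have htop : Rels.S1 g ⊔ h.base.eng.grp ⊔ Rels.S3 g ⊔ h.S4 ⊔ h.eng2.grp ⊔ h.NM = ⊤ := by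
    rw [eq_top_iff, ← hg]
    exact h.top_le
  rw [htop, ds_top] at a5
  exact a5

private theorem gens_map_xi {G G' : Type*} [Group G] [Group G'] {r : ℕ} (f : G →* G')
    (g : Gens G r) (i : Fin r) : (g.map f).xi i = f (g.xi i) := by
  simp [Gens.map, Gens.xi, Gens.mi, Gens.bi, Gens.Ai, Gens.Bi, Gens.AA, Gens.BB, Gens.XX,
    Gens.rho, cj, map_commutatorElement]

private theorem card_gens {G : Type*} [Group G] {r : ℕ} (g : Gens G r) :
    g.set.Finite ∧ g.set.ncard ≤ r + 17 := by
  classical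
  let l : List G := [g.t, g.u1, g.u2, g.th, g.et, g.d, g.sg, g.X, g.Y, g.ph, g.J1, g.J2, g.a,
    g.b, g.D, g.S, g.m]
  have e : g.set = ((l.toFinset ∪ Finset.univ.image g.s : Finset G) : Set G) := by
    ext x
    simp [Gens.set, l]
    tauto
  rw [e]
  refine ⟨Finset.finite_toSet _, ?_⟩
  rw [Set.ncard_coe_finset]
  refine (Finset.card_union_le _ _).trans ?_
  have h1 : l.toFinset.card ≤ 17 := l.toFinset_card_le
  have h2 : (Finset.univ.image g.s).card ≤ r := Finset.card_image_le.trans (by simp)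
  omega

/-- `S`, generated by `x_1, ..., x_r`, is the free solvable group of rank `r` and derived length
`3`: its third derived group is trivial and every family of `r` elements of a group with trivial
third derived group is the image of `x_1, ..., x_r` under a homomorphism. -/
structure IsFreeSolvable {S : Type u} [Group S] {r : ℕ} (x : Fin r → S) : Prop where
  generates : Subgroup.closure (Set.range x) = ⊤
  third_derived : derivedSeries S 3 = ⊥
  lift : ∀ (T : Type) [Group T], derivedSeries T 3 = ⊥ → ∀ y : Fin r → T,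
    ∃ g : S →* T, ∀ i, g (x i) = y i

/-- For every finite rank `r` there is a finitely presented group `H`, generated by `r + 17`
elements, with trivial ninth derived group such that `F_r / F_r'''`, and every free solvable group of rank `r` and derived length `3`
(defined by its universal property), embeds in `H`. -/
theorem result (r : ℕ) :
    ∃ (H : Type) (_ : Group H), Group.IsFinitelyPresented H ∧ Group.IsSolvable H ∧
      derivedSeries H 9 = ⊥ ∧
      (∃ X : Set H, X.Finite ∧ X.ncard ≤ r + 17 ∧ Subgroup.closure X = ⊤) ∧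
      (∃ f : (FreeGroup (Fin r) ⧸ derivedSeries (FreeGroup (Fin r)) 3) →* H,
        Function.Injective f) ∧
      ∀ (S : Type u) [Group S] (x : Fin r → S), IsFreeSolvable x →
        ∃ f : S →* H, Function.Injective f := by
  obtain ⟨m, k, rels, g, hg, hcl, huniv⟩ := finPres r
  have h9 := derived_nine g hg hcl
  have hinj : ∃ f : (FreeGroup (Fin r) ⧸ derivedSeries (FreeGroup (Fin r)) 3) →*
      PresentedGroup (Set.range rels), Function.Injective f := by
    refine ⟨QuotientGroup.lift _ (FreeGroup.lift g.xi) (fun w hw => derived_of_rels g hg w hw), ?_⟩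
    rw [injective_iff_map_eq_one]
    intro x
    induction x using QuotientGroup.induction_on with
    | H w =>
      intro hw
      change FreeGroup.lift g.xi w = 1 at hw
      rw [QuotientGroup.eq_one_iff]
      obtain ⟨G', iG', g', hg', hker⟩ := model r
      obtain ⟨f, hf⟩ := huniv G' g' hg'
      apply hker
      have : FreeGroup.lift g'.xi = f.comp (FreeGroup.lift g.xi) := by
        ext i
        simp [← hf, gens_map_xi]
      rw [this, MonoidHom.comp_apply, hw, map_one]
  refine ⟨PresentedGroup (Set.range rels), inferInstance, inferInstance, ⟨⟨9, h9⟩⟩, h9,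
    ⟨g.set, (card_gens g).1, (card_gens g).2, hcl⟩, hinj, ?_⟩
  intro S _ x hx
  obtain ⟨f, hf⟩ := hinj
  have hT : derivedSeries (FreeGroup (Fin r) ⧸ derivedSeries (FreeGroup (Fin r)) 3) 3 = ⊥ := by
    rw [eq_bot_iff]
    have := map_derivedSeries_le_derivedSeries
      (QuotientGroup.mk' (derivedSeries (FreeGroup (Fin r)) 3)) 3
    have hs := map_derivedSeries_eq
      (QuotientGroup.mk'_surjective (derivedSeries (FreeGroup (Fin r)) 3)) 3
    rw [← hs]
    rintro _ ⟨w, hw, rfl⟩
    rw [Subgroup.mem_bot]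
    exact (QuotientGroup.eq_one_iff w).2 hw
  obtain ⟨q, hq⟩ := hx.lift _ hT (fun i => (QuotientGroup.mk (FreeGroup.of i)))
  refine ⟨f.comp q, ?_⟩
  refine hf.comp ?_
  rw [injective_iff_map_eq_one]
  intro s hs
  have hsurj : Function.Surjective (FreeGroup.lift x) := by
    rw [← MonoidHom.range_eq_top, ← hx.generates, FreeGroup.range_lift_eq_closure]
  obtain ⟨w, rfl⟩ := hsurj s
  have hcomp : q.comp (FreeGroup.lift x) =
      QuotientGroup.mk' (derivedSeries (FreeGroup (Fin r)) 3) := by
    refine FreeGroup.ext_hom _ _ (fun i => ?_)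
    rw [MonoidHom.comp_apply, FreeGroup.lift_apply_of, hq]
    rfl
  have hw : w ∈ derivedSeries (FreeGroup (Fin r)) 3 := by
    rw [← QuotientGroup.eq_one_iff]
    have := DFunLike.congr_fun hcomp w
    simp only [MonoidHom.comp_apply] at this
    rw [hs] at this
    exact this.symm
  have := map_derivedSeries_le_derivedSeries (FreeGroup.lift x) 3
    (Subgroup.mem_map_of_mem (FreeGroup.lift x) hw)
  rw [hx.third_derived, Subgroup.mem_bot] at this
  exact this

end Pool.Agent.Results.MP_a4b3b2_al.FreeSolvableEmbedding
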